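import Mathlib
import Pool.Agent.MP_80b08f_co.Wreath

set_option autoImplicit false

namespace Pool.Agent.Results.MP_80b08f_co.InfinitelyMany

open Pool.Agent.MP_80b08f_co

/-- Infinitely many permutation classes are both 1-amalgamable and splittable. -/
theorem result : {C : Set Pm | IsClass C ∧ OneAmalg C ∧ Splittable C}.Infinite :=
  infinite_classes

end Pool.Agent.Results.MP_80b08f_co.InfinitelyMany
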